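import Mathlib

/-!
# MP_ac41cd_co: counting colourings
-/

set_option autoImplicit false

namespace Pool.Agent.MP_ac41cd_co

open Finset Classical

variable {V : Type} [Fintype V]

lemma count_constr (L : ℕ) (S : Finset V) (C : Finset (Fin L)) :
    (univ.filter (fun f : V → Fin L => ∀ w ∈ S, f w ∈ C)).card =
      C.card ^ S.card * L ^ (Fintype.card V - S.card) := by
  have h1 : (univ.filter (fun f : V → Fin L => ∀ w ∈ S, f w ∈ C)) =
      Fintype.piFinset (fun w => if w ∈ S then C else univ) := by
    ext f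
    simp only [mem_filter, mem_univ, true_and, Fintype.mem_piFinset]
    constructor
    · intro h w
      by_cases hw : w ∈ S
      · simp [hw, h w hw]
      · simp [hw]
    · intro h w hw
      simpa [hw] using h w
  rw [h1, Fintype.card_piFinset]
  have h2 : ∀ w : V, (if w ∈ S then C else (univ : Finset (Fin L))).card =
      if w ∈ S then C.card else L := by
    intro w
    by_cases hw : w ∈ S <;> simp [hw]
  simp only [h2]
  rw [prod_ite, prod_const, prod_const]
  congr 2
  · congr 1
    ext w; simp
  · rw [← card_compl]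
    congr 1
    ext w; simp

/-- Colourings constant `= 0` on `S`. -/
lemma count_zero (L : ℕ) (hL : 0 < L) (S : Finset V) :
    (univ.filter (fun f : V → Fin L => ∀ w ∈ S, f w = ⟨0, hL⟩)).card =
      L ^ (Fintype.card V - S.card) := by
  have := count_constr L S ({⟨0, hL⟩} : Finset (Fin L))
  simpa using this

/-- **Deletion lemma**: sparse triple systems have large independent sets. -/
theorem sparse_indep (A : Finset V) (T : Finset (V × V × V)) (L : ℕ) (hL : 0 < L)
    (hT : ∀ t ∈ T, t.1 ∈ A ∧ t.1 ≠ t.2.1 ∧ t.1 ≠ t.2.2 ∧ t.2.1 ≠ t.2.2)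
    (hcard : 2 * T.card ≤ L ^ 2 * A.card) :
    ∃ A' ⊆ A, A.card ≤ 2 * L * A'.card ∧ ∀ t ∈ T, ¬ (t.1 ∈ A' ∧ t.2.1 ∈ A' ∧ t.2.2 ∈ A') := by
  set z : Fin L := ⟨0, hL⟩
  set n := Fintype.card V
  by_cases hn : n ≤ 2
  · have hT0 : T = ∅ := by
      by_contra hne
      obtain ⟨t, ht⟩ := nonempty_iff_ne_empty.2 hne
      have h3 : ({t.1, t.2.1, t.2.2} : Finset V).card = 3 :=
        card_eq_three.2 ⟨_, _, _, (hT t ht).2.1, (hT t ht).2.2.1, (hT t ht).2.2.2, rfl⟩
      have := card_le_univ ({t.1, t.2.1, t.2.2} : Finset V)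
      omega
    refine ⟨A, Subset.rfl, ?_, by simp [hT0]⟩
    nlinarith
  · push Not at hn
    -- good colourings
    have key : ∃ f : V → Fin L, A.card + 2 * L * (T.filter (fun t =>
        f t.1 = z ∧ f t.2.1 = z ∧ f t.2.2 = z)).card ≤ 2 * L * (A.filter (fun a => f a = z)).card := by
      by_contra hcon
      push Not at hcon
      have hsum : ∑ f : V → Fin L, 2 * L * (A.filter (fun a => f a = z)).card <
          ∑ f : V → Fin L, (A.card + 2 * L * (T.filter (fun t =>
            f t.1 = z ∧ f t.2.1 = z ∧ f t.2.2 = z)).card) :=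
        sum_lt_sum_of_nonempty ⟨fun _ => z, mem_univ _⟩ fun f _ => hcon f
      have e1 : ∑ f : V → Fin L, (A.filter (fun a => f a = z)).card = A.card * L ^ (n - 1) := by
        simp only [card_filter]
        rw [sum_comm]
        have : ∀ a ∈ A, (∑ f : V → Fin L, if f a = z then 1 else 0) = L ^ (n - 1) := by
          intro a _
          rw [← card_filter]
          have := count_zero L hL ({a} : Finset V)
          simpa using this
        rw [sum_congr rfl this, sum_const, smul_eq_mul]
      have e2 : ∑ f : V → Fin L, (T.filter (fun t =>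
            f t.1 = z ∧ f t.2.1 = z ∧ f t.2.2 = z)).card = T.card * L ^ (n - 3) := by
        simp only [card_filter]
        rw [sum_comm]
        have : ∀ t ∈ T, (∑ f : V → Fin L, if f t.1 = z ∧ f t.2.1 = z ∧ f t.2.2 = z then 1 else 0) =
            L ^ (n - 3) := by
          intro t ht
          rw [← card_filter]
          have h3 : ({t.1, t.2.1, t.2.2} : Finset V).card = 3 :=
            card_eq_three.2 ⟨_, _, _, (hT t ht).2.1, (hT t ht).2.2.1, (hT t ht).2.2.2, rfl⟩
          have := count_zero L hL ({t.1, t.2.1, t.2.2} : Finset V)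
          rw [h3] at this
          simpa using this
        rw [sum_congr rfl this, sum_const, smul_eq_mul]
      rw [← mul_sum, e1, sum_add_distrib, ← mul_sum, e2, sum_const, card_univ, smul_eq_mul,
        Fintype.card_fun, Fintype.card_fin] at hsum
      have p1 : L ^ n = L ^ 3 * L ^ (n - 3) := by
        rw [← pow_add]; congr 1; omega
      have p2 : L ^ (n - 1) = L ^ 2 * L ^ (n - 3) := by
        rw [← pow_add]; congr 1; omega
      have h5 : (2 * T.card) * (L * L ^ (n - 3)) ≤ (L ^ 2 * A.card) * (L * L ^ (n - 3)) :=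
        Nat.mul_le_mul_right _ hcard
      change 2 * L * (A.card * L ^ (n - 1)) < L ^ n * A.card + 2 * L * (T.card * L ^ (n - 3)) at hsum
      rw [p1, p2] at hsum
      nlinarith
    obtain ⟨f, hf⟩ := key
    set T' := T.filter (fun t => f t.1 = z ∧ f t.2.1 = z ∧ f t.2.2 = z)
    set A1 := A.filter (fun a => f a = z)
    refine ⟨A1 \ T'.image (fun t => t.1), sdiff_subset.trans (filter_subset _ _), ?_, ?_⟩
    · have h1 : A1.card - (T'.image (fun t => t.1)).card ≤ (A1 \ T'.image (fun t => t.1)).card :=
        le_card_sdiff _ _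
      have h2 : (T'.image (fun t => t.1)).card ≤ T'.card := card_image_le
      have h3 : A1.card ≤ T'.card + (A1 \ T'.image (fun t => t.1)).card := by omega
      have h4 : 2 * L * A1.card ≤ 2 * L * (T'.card + (A1 \ T'.image (fun t => t.1)).card) :=
        Nat.mul_le_mul_left _ h3
      nlinarith
    · rintro t ht ⟨h1, h2, h3⟩
      rw [mem_sdiff] at h1 h2 h3
      refine h1.2 (mem_image.2 ⟨t, ?_, rfl⟩)
      exact mem_filter.2 ⟨ht, (mem_filter.1 h1.1).2, (mem_filter.1 h2.1).2, (mem_filter.1 h3.1).2⟩

end Pool.Agent.MP_ac41cd_co
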