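import Mathlib

/-!
# MP_ac41cd_co: the homogenisation lemma (a simplified Füredi lemma)
-/

set_option autoImplicit false

namespace Pool.Agent.MP_ac41cd_co

open Finset Classical

variable {α β ι : Type*}

/-- The fibre of `φ` through `a` inside `A`. -/
noncomputable def fib (φ : α → β) (A : Finset α) (a : α) : Finset α :=
  A.filter (fun b => φ b = φ a)

lemma mem_fib {φ : α → β} {A : Finset α} {a b : α} :
    b ∈ fib φ A a ↔ b ∈ A ∧ φ b = φ a := by
  simp [fib]

lemma fib_subset (φ : α → β) (A : Finset α) (a : α) : fib φ A a ⊆ A := filter_subset _ _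

/-- Deletion process: delete whole fibres of size `< s`. -/
lemma deletion (T : Finset ι) (φ : ι → α → β) (s : ℕ) :
    ∀ (n : ℕ) (A : Finset α), A.card = n → ∃ (A' : Finset α) (D : ι → Finset α), A' ⊆ A ∧
      (∀ t, D t ⊆ A) ∧ (A ⊆ A' ∪ T.biUnion D) ∧
      (∀ t ∈ T, ∀ a ∈ A', s ≤ (fib (φ t) A' a).card) ∧
      (∀ t ∈ T, ∀ a ∈ D t, (fib (φ t) (D t) a).card < s) := by
  intro n
  induction n using Nat.strong_induction_on with
  | _ n ih =>
    intro A hA
    by_cases h : ∀ t ∈ T, ∀ a ∈ A, s ≤ (fib (φ t) A a).card
    · exact ⟨A, fun _ => ∅, Subset.rfl, fun _ => by simp, by simp, h, by simp⟩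
    · push Not at h
      obtain ⟨t, ht, a, ha, hlt⟩ := h
      have haF : a ∈ fib (φ t) A a := mem_fib.2 ⟨ha, rfl⟩
      have hFA : fib (φ t) A a ⊆ A := filter_subset _ _
      have hcard : (A \ fib (φ t) A a).card < n := by
        rw [← hA]
        exact card_lt_card ((ssubset_iff_of_subset sdiff_subset).2 ⟨a, ha, by simp [haF]⟩)
      obtain ⟨A', D, h1, h2, h3, h4, h5⟩ := ih _ hcard (A \ fib (φ t) A a) rfl
      refine ⟨A', fun u => if u = t then D t ∪ fib (φ t) A a else D u, h1.trans sdiff_subset,
        ?_, ?_, h4, ?_⟩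
      · intro u
        by_cases hu : u = t
        · simp only [hu, if_true]
          exact union_subset ((h2 t).trans sdiff_subset) hFA
        · simp only [hu, if_false]
          exact (h2 u).trans sdiff_subset
      · intro b hb
        by_cases hbF : b ∈ fib (φ t) A a
        · refine mem_union_right _ (mem_biUnion.2 ⟨t, ht, ?_⟩)
          simp [hbF]
        · have hb' : b ∈ A \ fib (φ t) A a := mem_sdiff.2 ⟨hb, hbF⟩
          rcases mem_union.1 (h3 hb') with h | h
          · exact mem_union_left _ h
          · obtain ⟨u, hu, hbu⟩ := mem_biUnion.1 h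
            refine mem_union_right _ (mem_biUnion.2 ⟨u, hu, ?_⟩)
            by_cases hut : u = t
            · subst hut; simp [hbu]
            · simp [hut, hbu]
      · intro u hu b hb
        by_cases hut : u = t
        · subst hut
          simp only [if_true] at hb ⊢
          by_cases hk : φ u b = φ u a
          · refine lt_of_le_of_lt (card_le_card ?_) hlt
            intro c hc
            rw [mem_fib] at hc
            rcases mem_union.1 hc.1 with h | h
            · have := h2 u h
              rw [mem_sdiff, mem_fib] at this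
              exact absurd ⟨this.1, hc.2.trans hk⟩ this.2
            · exact h
          · have hbD : b ∈ D u := by
              rcases mem_union.1 hb with h | h
              · exact h
              · exact absurd (mem_fib.1 h).2 hk
            refine lt_of_le_of_lt (card_le_card ?_) (h5 u hu b hbD)
            intro c hc
            rw [mem_fib] at hc ⊢
            rcases mem_union.1 hc.1 with h | h
            · exact ⟨h, hc.2⟩
            · exact absurd (hc.2.symm.trans (mem_fib.1 h).2) hk
        · simp only [hut, if_false] at hb ⊢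
          exact h5 u hu b hb

/-- Pick one element in every fibre. -/
lemma transversal (φ : α → β) (D : Finset α) (s : ℕ)
    (h : ∀ a ∈ D, (fib φ D a).card ≤ s) :
    ∃ D' : Finset α, D' ⊆ D ∧ Set.InjOn φ D' ∧ D.card ≤ s * D'.card := by
  obtain ⟨u, hu, hinj, himg⟩ := Finset.exists_subset_injOn_image_eq_of_surjOn (f := φ)
    (D : Set α) (D.image φ) (by intro y hy; simpa using hy)
  refine ⟨u, by exact_mod_cast hu, hinj, ?_⟩
  have h1 : u.card = (D.image φ).card := by
    rw [← himg, card_image_of_injOn hinj]
  rw [h1]
  apply Finset.card_le_mul_card_image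
  intro k hk
  obtain ⟨a, ha, rfl⟩ := mem_image.1 hk
  exact h a ha

/-- **Homogenisation lemma.** -/
lemma homogenise (s : ℕ) (hs : 1 ≤ s) : ∀ τ : ℕ, ∃ c : ℕ, 1 ≤ c ∧
    ∀ (α β ι : Type) (φ : ι → α → β) (T : Finset ι) (A : Finset α), T.card ≤ τ → A.Nonempty →
      ∃ A' : Finset α, A' ⊆ A ∧ A'.Nonempty ∧ A.card ≤ c * A'.card ∧
        ∀ t ∈ T, Set.InjOn (φ t) A' ∨ ∀ a ∈ A', s ≤ (fib (φ t) A' a).card := by
  intro τ
  induction τ with
  | zero =>
    refine ⟨1, le_rfl, fun α β ι φ T A hT hA => ⟨A, Subset.rfl, hA, by simp, ?_⟩⟩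
    have : T = ∅ := by simpa using hT
    simp [this]
  | succ τ ih =>
    obtain ⟨c, hc, ih⟩ := ih
    refine ⟨2 * (τ + 1) * s * c, by
      have : 0 < 2 * (τ + 1) * s * c := by positivity
      omega, fun α β ι φ T A hT hA => ?_⟩
    have hcpos : 2 ≤ 2 * (τ + 1) * s * c := by
      have : 0 < (τ + 1) * s * c := by positivity
      nlinarith
    obtain ⟨A', D, h1, h2, h3, h4, h5⟩ := deletion T φ s _ A rfl
    by_cases hbig : A.card ≤ 2 * A'.card
    · refine ⟨A', h1, ?_, ?_, fun t ht => Or.inr (h4 t ht)⟩
      · rw [← card_pos]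
        have := card_pos.2 hA
        omega
      · exact hbig.trans (Nat.mul_le_mul_right _ hcpos)
    · have hsum : A.card ≤ A'.card + ∑ t ∈ T, (D t).card :=
        (card_le_card h3).trans ((card_union_le _ _).trans (by
          gcongr
          exact card_biUnion_le))
      have hsum2 : A.card ≤ 2 * ∑ t ∈ T, (D t).card := by omega
      obtain ⟨t, ht, hDt⟩ : ∃ t ∈ T, A.card ≤ 2 * (τ + 1) * (D t).card := by
        by_contra hcon
        push Not at hcon
        have hTne : T.Nonempty := by
          by_contra hT0
          rw [not_nonempty_iff_eq_empty] at hT0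
          simp [hT0] at hsum2
          exact hA.ne_empty hsum2
        have := sum_lt_sum_of_nonempty hTne hcon
        rw [← mul_sum, sum_const, smul_eq_mul] at this
        have h6 : T.card * A.card ≤ (τ + 1) * A.card := Nat.mul_le_mul_right _ hT
        nlinarith
      obtain ⟨D', h6, h7, h8⟩ := transversal (φ t) (D t) s (fun a ha => (h5 t ht a ha).le)
      have hD'ne : D'.Nonempty := by
        rw [← card_pos]
        by_contra h0
        have h0' : D'.card = 0 := by omega
        have := card_pos.2 hA
        rw [h0', mul_zero] at h8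
        have h9 : (D t).card = 0 := by omega
        rw [h9] at hDt
        omega
      obtain ⟨A'', h9, h10, h11, h12⟩ := ih α β ι φ (T.erase t) D' (by
        rw [card_erase_of_mem ht]; omega) hD'ne
      refine ⟨A'', h9.trans (h6.trans (h2 t)), h10, ?_, ?_⟩
      · calc A.card ≤ 2 * (τ + 1) * (D t).card := hDt
          _ ≤ 2 * (τ + 1) * (s * D'.card) := Nat.mul_le_mul_left _ h8
          _ ≤ 2 * (τ + 1) * (s * (c * A''.card)) :=
            Nat.mul_le_mul_left _ (Nat.mul_le_mul_left _ h11)
          _ = 2 * (τ + 1) * s * c * A''.card := by ring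
      · intro u hu
        by_cases hut : u = t
        · subst hut
          exact Or.inl (h7.mono (by exact_mod_cast h9))
        · exact h12 u (mem_erase.2 ⟨hut, hu⟩)

end Pool.Agent.MP_ac41cd_co
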