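import Mathlib
import Pool.Agent.Lib.MP_ac41cd_co.Hom

/-!
# MP_ac41cd_co: hosts
-/

set_option autoImplicit false

namespace Pool.Agent.MP_ac41cd_co

open Finset Classical

/-- A preliminary host: disjoint `A`, `B` with `M |B| < |A|`, and every `a ∈ A` has a neighbour
`x i a` in the `i`-th part of `B`, `i < d`. -/
def Pre {V : Type} (G : SimpleGraph V) (d M : ℕ) : Prop :=
  ∃ (A B : Finset V) (x : Fin d → V → V),
    (∀ a ∈ A, ∀ i, G.Adj a (x i a)) ∧ (∀ a ∈ A, ∀ i, x i a ∈ B) ∧ Disjoint A B ∧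
    (∀ a ∈ A, ∀ b ∈ A, ∀ i j, i ≠ j → x i a ≠ x j b) ∧ M * B.card < A.card

/-- A complete bipartite subgraph `K_{s,m}`. -/
def KK {V : Type} (G : SimpleGraph V) (s m : ℕ) : Prop :=
  ∃ (P Q : Finset V), P.card = s ∧ Q.card = m ∧ Disjoint P Q ∧ ∀ p ∈ P, ∀ q ∈ Q, G.Adj p q

/-- A linear host: every `a ∈ A` has one neighbour `x i a` in each of `r` disjoint parts, two
elements of `A` share at most one of these, and every used vertex has at least `D` neighbours. -/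
def Host {V : Type} (G : SimpleGraph V) (r D : ℕ) : Prop :=
  ∃ (A : Finset V) (x : Fin r → V → V), A.Nonempty ∧
    (∀ a ∈ A, ∀ i, G.Adj a (x i a)) ∧
    (∀ a ∈ A, ∀ b ∈ A, ∀ i, x i a ≠ b) ∧
    (∀ a ∈ A, ∀ b ∈ A, ∀ i j, i ≠ j → x i a ≠ x j b) ∧
    (∀ a ∈ A, ∀ b ∈ A, a ≠ b → ∀ i j, x i a = x i b → x j a = x j b → i = j) ∧
    (∀ a ∈ A, ∀ i, D ≤ (fib (x i) A a).card)

end Pool.Agent.MP_ac41cd_co
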