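import Mathlib
import Pool.Agent.Lib.MP_ac41cd_co.Defs
import Pool.Agent.Lib.MP_ac41cd_co.Count

/-!
# MP_ac41cd_co: pruning a linear host so that no hexagon meets the largest part
-/

set_option autoImplicit false

namespace Pool.Agent.MP_ac41cd_co

open Finset Classical

/-- Cleaning: if `A` is large compared with its images there is a nonempty subset all of whose
fibres have at least `R` elements. -/
lemma clean {V : Type} {r : ℕ} (x : Fin r → V → V) (R : ℕ) :
    ∀ (n : ℕ) (A : Finset V), A.card = n → A.Nonempty → R * ∑ i, (A.image (x i)).card ≤ A.card →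
      ∃ A' ⊆ A, A'.Nonempty ∧ ∀ a ∈ A', ∀ i, R ≤ (fib (x i) A' a).card := by
  intro n
  induction n using Nat.strong_induction_on with
  | _ n ih =>
    intro A hA hne hR
    by_cases h : ∀ a ∈ A, ∀ i, R ≤ (fib (x i) A a).card
    · exact ⟨A, Subset.rfl, hne, h⟩
    · push Not at h
      obtain ⟨a, ha, i, hlt⟩ := h
      have haF : a ∈ fib (x i) A a := mem_fib.2 ⟨ha, rfl⟩
      set A1 := A \ fib (x i) A a with hA1
      have hsub : A1 ⊆ A := sdiff_subset
      have hcard : A1.card + (fib (x i) A a).card = A.card :=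
        card_sdiff_add_card_eq_card (fib_subset _ _ _)
      have hpos : 0 < (fib (x i) A a).card := card_pos.2 ⟨a, haF⟩
      have him : ∑ j, (A1.image (x j)).card + 1 ≤ ∑ j, (A.image (x j)).card := by
        have h1 : ∀ j, (A1.image (x j)).card + (if j = i then 1 else 0) ≤
            (A.image (x j)).card := by
          intro j
          by_cases hj : j = i
          · subst hj
            simp only [if_true]
            have h2 : A1.image (x j) ⊂ A.image (x j) := by
              rw [ssubset_iff_of_subset (image_subset_image hsub)]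
              refine ⟨x j a, mem_image_of_mem _ ha, ?_⟩
              intro hmem
              obtain ⟨b, hb, hbe⟩ := mem_image.1 hmem
              rw [hA1, mem_sdiff, mem_fib] at hb
              exact hb.2 ⟨hb.1, hbe⟩
            exact card_lt_card h2
          · simp only [hj, if_false, add_zero]
            exact card_le_card (image_subset_image hsub)
        calc ∑ j, (A1.image (x j)).card + 1
            = ∑ j, ((A1.image (x j)).card + if j = i then 1 else 0) := by
              rw [sum_add_distrib]; simp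
          _ ≤ _ := sum_le_sum fun j _ => h1 j
      have h3 : R * (∑ j, (A1.image (x j)).card + 1) ≤ A.card :=
        (Nat.mul_le_mul_left _ him).trans hR
      have h4 : R * (∑ j, (A1.image (x j)).card) + R ≤ A.card := by
        rw [mul_add, mul_one] at h3; exact h3
      obtain ⟨A', hA', hne', hfin⟩ := ih A1.card (by omega) A1 rfl
        (by rw [← card_pos]; omega) (by omega)
      exact ⟨A', hA'.trans hsub, hne', hfin⟩

/-- A good host: a linear host in which moreover no hexagon meets the part `i₀`. -/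
def Good {V : Type} (G : SimpleGraph V) (r R : ℕ) : Prop :=
  ∃ (A : Finset V) (x : Fin r → V → V) (i₀ : Fin r), A.Nonempty ∧
    (∀ a ∈ A, ∀ i, G.Adj a (x i a)) ∧
    (∀ a ∈ A, ∀ b ∈ A, ∀ i, x i a ≠ b) ∧
    (∀ a ∈ A, ∀ b ∈ A, ∀ i j, i ≠ j → x i a ≠ x j b) ∧
    (∀ a ∈ A, ∀ b ∈ A, a ≠ b → ∀ i j, x i a = x i b → x j a = x j b → i = j) ∧
    (∀ a ∈ A, ∀ i, R ≤ (fib (x i) A a).card) ∧
    (∀ a ∈ A, ∀ b ∈ A, ∀ c ∈ A, a ≠ b → x i₀ a = x i₀ b → ∀ j k, j ≠ i₀ → k ≠ i₀ → j ≠ k →
      x j c = x j a → x k c = x k b → False)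

theorem prune (r R : ℕ) (hr : 1 ≤ r) : ∃ D : ℕ, ∀ (V : Type) [Fintype V] (G : SimpleGraph V),
    Host G r D → Good G r R := by
  set R' := R + 1 with hR'
  set L := 4 * r ^ 3 * R' with hL
  set D := 2 * L * (r * R') with hD
  have hLpos : 0 < L := by positivity
  have hDL : 2 * (r ^ 2 * D) ≤ L ^ 2 := by
    rw [hD, hL]
    ring_nf
    exact le_rfl
  refine ⟨D, fun V _ G ⟨A, x, hne, hadj, hAB, hpart, hlin, hfib⟩ => ?_⟩
  haveI : Nonempty (Fin r) := ⟨⟨0, hr⟩⟩
  obtain ⟨i₀, -, hi₀⟩ := exists_max_image (univ : Finset (Fin r))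
    (fun i => (A.image (x i)).card) univ_nonempty
  -- exact fibres in the largest part
  have hchoose : ∀ u : V, ∃ F : Finset V, (u ∈ A.image (x i₀) → F ⊆ A ∧ F.card = D ∧
      ∀ a ∈ F, x i₀ a = u) := by
    intro u
    by_cases hu : u ∈ A.image (x i₀)
    · obtain ⟨a, ha, rfl⟩ := mem_image.1 hu
      obtain ⟨F, hF, hFc⟩ := exists_subset_card_eq (hfib a ha i₀)
      exact ⟨F, fun _ => ⟨hF.trans (fib_subset _ _ _), hFc, fun b hb => (mem_fib.1 (hF hb)).2⟩⟩
    · exact ⟨∅, fun h => absurd h hu⟩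
  choose F hF using hchoose
  set A1 := (A.image (x i₀)).biUnion F with hA1
  have hA1A : A1 ⊆ A := by
    rw [hA1, biUnion_subset]
    exact fun u hu => (hF u hu).1
  have hA1card : A1.card = (A.image (x i₀)).card * D := by
    rw [hA1, card_biUnion, sum_congr rfl (fun u hu => (hF u hu).2.1), sum_const, smul_eq_mul]
    intro u hu v hv huv
    rw [Function.onFun, disjoint_left]
    intro a ha ha'
    exact huv (((hF u hu).2.2 a ha).symm.trans ((hF v hv).2.2 a ha'))
  have hfibA1 : ∀ a ∈ A1, (fib (x i₀) A1 a).card ≤ D := by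
    intro a ha
    have hu : x i₀ a ∈ A.image (x i₀) := mem_image_of_mem _ (hA1A ha)
    rw [← (hF _ hu).2.1]
    apply card_le_card
    intro b hb
    rw [mem_fib] at hb
    rw [hA1, mem_biUnion] at hb
    obtain ⟨⟨v, hv, hbv⟩, hb2⟩ := hb
    have : v = x i₀ a := by rw [← hb2, (hF v hv).2.2 b hbv]
    rw [← this]; exact hbv
  -- bad triples
  set T : Finset (V × V × V) := (A1 ×ˢ A1 ×ˢ A1).filter (fun t => t.1 ≠ t.2.1 ∧
    x i₀ t.1 = x i₀ t.2.1 ∧ ∃ j k, j ≠ i₀ ∧ k ≠ i₀ ∧ j ≠ k ∧ x j t.2.2 = x j t.1 ∧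
      x k t.2.2 = x k t.2.1) with hT
  have hTmem : ∀ t ∈ T, t.1 ∈ A1 ∧ t.2.1 ∈ A1 ∧ t.2.2 ∈ A1 ∧ t.1 ≠ t.2.1 ∧
      x i₀ t.1 = x i₀ t.2.1 ∧ ∃ j k, j ≠ i₀ ∧ k ≠ i₀ ∧ j ≠ k ∧ x j t.2.2 = x j t.1 ∧
      x k t.2.2 = x k t.2.1 := by
    intro t ht
    rw [hT, mem_filter, mem_product, mem_product] at ht
    exact ⟨ht.1.1, ht.1.2.1, ht.1.2.2, ht.2⟩
  have hTcard : T.card ≤ r ^ 2 * (A1.card * D) := by
    set P : Finset (Σ _ : V, V) := A1.sigma (fun a => fib (x i₀) A1 a) with hP
    have hPcard : P.card ≤ A1.card * D := by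
      rw [hP, card_sigma]
      calc _ ≤ ∑ _a ∈ A1, D := sum_le_sum hfibA1
        _ = _ := by rw [sum_const, smul_eq_mul]
    set Tjk : Fin r × Fin r → Finset (V × V × V) := fun p => (A1 ×ˢ A1 ×ˢ A1).filter (fun t =>
      x i₀ t.1 = x i₀ t.2.1 ∧ p.1 ≠ p.2 ∧ x p.1 t.2.2 = x p.1 t.1 ∧
      x p.2 t.2.2 = x p.2 t.2.1) with hTjk
    have h1 : T ⊆ (univ : Finset (Fin r × Fin r)).biUnion Tjk := by
      intro t ht
      obtain ⟨h1, h2, h3, h4, h5, j, k, hj, hk, hjk, h6, h7⟩ := hTmem t ht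
      refine mem_biUnion.2 ⟨(j, k), mem_univ _, ?_⟩
      rw [hTjk, mem_filter, mem_product, mem_product]
      exact ⟨⟨h1, h2, h3⟩, h5, hjk, h6, h7⟩
    have h2 : ∀ p ∈ (univ : Finset (Fin r × Fin r)), (Tjk p).card ≤ A1.card * D := by
      intro p _
      refine le_trans (card_le_card_of_injOn (fun t => (⟨t.1, t.2.1⟩ : Σ _ : V, V)) ?_ ?_) hPcard
      · intro t ht
        rw [hTjk, mem_coe, mem_filter, mem_product, mem_product] at ht
        rw [hP]
        simp only [mem_coe, mem_sigma]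
        exact ⟨ht.1.1, mem_fib.2 ⟨ht.1.2.1, ht.2.1.symm⟩⟩
      · intro t ht t' ht' htt
        rw [hTjk, mem_coe, mem_filter, mem_product, mem_product] at ht ht'
        have e1 : t.1 = t'.1 := congrArg Sigma.fst htt
        have e2 : t.2.1 = t'.2.1 := by
          have := (Sigma.mk.inj_iff.1 htt).2
          exact eq_of_heq this
        have e3 : t.2.2 = t'.2.2 := by
          by_contra hne
          apply ht.2.2.1
          refine hlin t.2.2 (hA1A ht.1.2.2) t'.2.2 (hA1A ht'.1.2.2) hne p.1 p.2 ?_ ?_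
          · rw [ht.2.2.2.1, ht'.2.2.2.1, e1]
          · rw [ht.2.2.2.2, ht'.2.2.2.2, e2]
        exact Prod.ext e1 (Prod.ext e2 e3)
    calc T.card ≤ ((univ : Finset (Fin r × Fin r)).biUnion Tjk).card := card_le_card h1
      _ ≤ ∑ p : Fin r × Fin r, (Tjk p).card := card_biUnion_le
      _ ≤ ∑ _p : Fin r × Fin r, A1.card * D := sum_le_sum h2
      _ = r ^ 2 * (A1.card * D) := by
        rw [sum_const, card_univ, Fintype.card_prod, Fintype.card_fin, smul_eq_mul, sq]
  have hT2 : 2 * T.card ≤ L ^ 2 * A1.card := by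
    calc 2 * T.card ≤ 2 * (r ^ 2 * (A1.card * D)) := Nat.mul_le_mul_left _ hTcard
      _ = (2 * (r ^ 2 * D)) * A1.card := by ring
      _ ≤ L ^ 2 * A1.card := Nat.mul_le_mul_right _ hDL
  obtain ⟨A2, hA2, hA2card, hA2T⟩ := sparse_indep A1 T L hLpos (by
    intro t ht
    obtain ⟨h1, h2, h3, h4, h5, j, k, hj, hk, hjk, h6, h7⟩ := hTmem t ht
    refine ⟨h1, h4, ?_, ?_⟩
    · intro h
      rw [← h] at h7
      exact hk (hlin _ (hA1A h1) _ (hA1A h2) h4 i₀ k h5 h7).symm
    · intro h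
      rw [← h] at h6
      exact hj (hlin _ (hA1A h1) _ (hA1A h2) h4 i₀ j h5 h6.symm).symm) hT2
  have hA2A : A2 ⊆ A := hA2.trans hA1A
  have himpos : 0 < (A.image (x i₀)).card := card_pos.2 (hne.image _)
  have hA2big : r * R' * (A.image (x i₀)).card ≤ A2.card := by
    rw [hA1card, hD] at hA2card
    have : (2 * L) * (r * R' * (A.image (x i₀)).card) ≤ (2 * L) * A2.card := by
      calc (2 * L) * (r * R' * (A.image (x i₀)).card)
          = (A.image (x i₀)).card * (2 * L * (r * R')) := by ring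
        _ ≤ _ := hA2card
    exact Nat.le_of_mul_le_mul_left this (by positivity)
  have hA2ne : A2.Nonempty := by
    rw [← card_pos]
    have : 0 < r * R' * (A.image (x i₀)).card := by positivity
    omega
  obtain ⟨A3, hA3, hA3ne, hA3fib⟩ := clean x R' _ A2 rfl hA2ne (by
    calc R' * ∑ i, (A2.image (x i)).card ≤ R' * ∑ _i : Fin r, (A.image (x i₀)).card := by
          refine Nat.mul_le_mul_left _ (sum_le_sum fun i _ => ?_)
          exact (card_le_card (image_subset_image hA2A)).trans (hi₀ i (mem_univ _))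
      _ = r * R' * (A.image (x i₀)).card := by
          rw [sum_const, card_univ, Fintype.card_fin, smul_eq_mul]; ring
      _ ≤ _ := hA2big)
  have hA3A : A3 ⊆ A := hA3.trans hA2A
  refine ⟨A3, x, i₀, hA3ne, fun a ha => hadj a (hA3A ha), fun a ha b hb =>
    hAB a (hA3A ha) b (hA3A hb), fun a ha b hb => hpart a (hA3A ha) b (hA3A hb), fun a ha b hb =>
    hlin a (hA3A ha) b (hA3A hb), fun a ha i => le_trans (by omega) (hA3fib a ha i), ?_⟩
  intro a ha b hb c hc hab hi j k hj hk hjk h1 h2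
  refine hA2T (a, b, c) ?_ ⟨hA3 ha, hA3 hb, hA3 hc⟩
  rw [hT, mem_filter, mem_product, mem_product]
  exact ⟨⟨hA2 (hA3 ha), hA2 (hA3 hb), hA2 (hA3 hc)⟩, hab, hi, j, k, hj, hk, hjk, h1, h2⟩

end Pool.Agent.MP_ac41cd_co
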