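import Mathlib
import Pool.Agent.Lib.MP_ac41cd_co.Prune

/-!
# MP_ac41cd_co: the graph of a good host and its short cycles
-/

set_option autoImplicit false

namespace Pool.Agent.MP_ac41cd_co

open Finset

variable {V : Type} {r : ℕ}

/-- The bipartite graph with edges `a — x i a`, `a ∈ A`. -/
def HG (A : Finset V) (x : Fin r → V → V) : SimpleGraph V :=
  SimpleGraph.fromRel (fun a b => a ∈ A ∧ ∃ i, x i a = b)

section
variable {A : Finset V} {x : Fin r → V → V}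
  (hAB : ∀ a ∈ A, ∀ b ∈ A, ∀ i, x i a ≠ b)
  (hpart : ∀ a ∈ A, ∀ b ∈ A, ∀ i j, i ≠ j → x i a ≠ x j b)
  (hlin : ∀ a ∈ A, ∀ b ∈ A, a ≠ b → ∀ i j, x i a = x i b → x j a = x j b → i = j)

include hAB in
lemma HG_adj {u v : V} : (HG A x).Adj u v ↔ (u ∈ A ∧ ∃ i, x i u = v) ∨ (v ∈ A ∧ ∃ i, x i v = u) := by
  unfold HG
  rw [SimpleGraph.fromRel_adj]
  constructor
  · rintro ⟨_, h⟩
    exact h
  · intro h
    refine ⟨?_, h⟩
    rintro rfl
    rcases h with ⟨h1, i, h2⟩ | ⟨h1, i, h2⟩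
    · exact hAB u h1 u h1 i h2
    · exact hAB u h1 u h1 i h2

include hAB in
lemma HG_adj_mem {u v : V} (h : (HG A x).Adj u v) : u ∈ A ↔ v ∉ A := by
  rcases (HG_adj hAB).1 h with ⟨h1, i, h2⟩ | ⟨h1, i, h2⟩
  · refine ⟨fun _ hv => hAB u h1 v hv i h2, fun _ => h1⟩
  · exact ⟨fun hu => absurd h2 (hAB v h1 u hu i), fun h => absurd h1 h⟩

include hAB in
lemma HG_adj_A {u v : V} (h : (HG A x).Adj u v) (hu : u ∈ A) : ∃ i, x i u = v := by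
  rcases (HG_adj hAB).1 h with ⟨h1, i, h2⟩ | ⟨h1, i, h2⟩
  · exact ⟨i, h2⟩
  · exact absurd h2 (hAB v h1 u hu i)

include hpart in
lemma part_eq {a b : V} (ha : a ∈ A) (hb : b ∈ A) {i j : Fin r} (h : x i a = x j b) : i = j := by
  by_contra hij
  exact hpart a ha b hb i j hij h

include hAB hpart hlin in
/-- No 4-cycle starting in `A`. -/
lemma no_C4_A {u0 u1 u2 u3 : V} (h0 : u0 ∈ A) (h01 : (HG A x).Adj u0 u1)
    (h12 : (HG A x).Adj u1 u2) (h23 : (HG A x).Adj u2 u3) (h30 : (HG A x).Adj u3 u0)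
    (hne : u0 ≠ u2) (hne' : u1 ≠ u3) : False := by
  have h2 : u2 ∈ A := by
    have h1 : u1 ∉ A := (HG_adj_mem hAB h01).1 h0
    by_contra h
    exact h1 ((HG_adj_mem hAB h12).2 h)
  obtain ⟨i, hi⟩ := HG_adj_A hAB h01 h0
  obtain ⟨i', hi'⟩ := HG_adj_A hAB h12.symm h2
  obtain ⟨j, hj⟩ := HG_adj_A hAB h23 h2
  obtain ⟨j', hj'⟩ := HG_adj_A hAB h30.symm h0
  have e1 : i = i' := part_eq hpart h0 h2 (hi.trans hi'.symm)
  have e2 : j = j' := part_eq hpart h2 h0 (hj.trans hj'.symm)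
  subst e1 e2
  have := hlin u0 h0 u2 h2 hne i j (hi.trans hi'.symm) (hj'.trans hj.symm)
  subst this
  exact hne' (hi.symm.trans hj')

include hAB hpart hlin in
lemma no_C4 {u0 u1 u2 u3 : V} (h01 : (HG A x).Adj u0 u1)
    (h12 : (HG A x).Adj u1 u2) (h23 : (HG A x).Adj u2 u3) (h30 : (HG A x).Adj u3 u0)
    (hne : u0 ≠ u2) (hne' : u1 ≠ u3) : False := by
  by_cases h0 : u0 ∈ A
  · exact no_C4_A hAB hpart hlin h0 h01 h12 h23 h30 hne hne'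
  · have h1 : u1 ∈ A := by
      by_contra h
      exact h0 ((HG_adj_mem hAB h01).2 h)
    exact no_C4_A hAB hpart hlin h1 h12 h23 h30 h01 hne' hne.symm

include hAB hpart in
/-- Structure of a 6-cycle starting in `A`. -/
lemma hex_A {u0 u1 u2 u3 u4 u5 : V} (h0 : u0 ∈ A) (h01 : (HG A x).Adj u0 u1)
    (h12 : (HG A x).Adj u1 u2) (h23 : (HG A x).Adj u2 u3) (h34 : (HG A x).Adj u3 u4)
    (h45 : (HG A x).Adj u4 u5) (h50 : (HG A x).Adj u5 u0)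
    (n13 : u1 ≠ u3) (n35 : u3 ≠ u5) (n51 : u5 ≠ u1) :
    u2 ∈ A ∧ u4 ∈ A ∧ ∃ i j k, i ≠ j ∧ j ≠ k ∧ k ≠ i ∧ x i u0 = u1 ∧ x i u2 = u1 ∧ x j u2 = u3 ∧
      x j u4 = u3 ∧ x k u4 = u5 ∧ x k u0 = u5 := by
  have h1 : u1 ∉ A := (HG_adj_mem hAB h01).1 h0
  have h2 : u2 ∈ A := by
    by_contra h
    exact h1 ((HG_adj_mem hAB h12).2 h)
  have h3 : u3 ∉ A := (HG_adj_mem hAB h23).1 h2
  have h4 : u4 ∈ A := by
    by_contra h
    exact h3 ((HG_adj_mem hAB h34).2 h)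
  obtain ⟨i, hi⟩ := HG_adj_A hAB h01 h0
  obtain ⟨i', hi'⟩ := HG_adj_A hAB h12.symm h2
  obtain ⟨j, hj⟩ := HG_adj_A hAB h23 h2
  obtain ⟨j', hj'⟩ := HG_adj_A hAB h34.symm h4
  obtain ⟨k, hk⟩ := HG_adj_A hAB h45 h4
  obtain ⟨k', hk'⟩ := HG_adj_A hAB h50.symm h0
  have e1 : i = i' := part_eq hpart h0 h2 (hi.trans hi'.symm)
  have e2 : j = j' := part_eq hpart h2 h4 (hj.trans hj'.symm)
  have e3 : k = k' := part_eq hpart h4 h0 (hk.trans hk'.symm)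
  subst e1 e2 e3
  refine ⟨h2, h4, i, j, k, ?_, ?_, ?_, hi, hi', hj, hj', hk, hk'⟩
  · rintro rfl; exact n13 (hi'.symm.trans hj)
  · rintro rfl; exact n35 (hj'.symm.trans hk)
  · rintro rfl; exact n51 (hk'.symm.trans hi)

end

end Pool.Agent.MP_ac41cd_co
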