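import Mathlib
import Pool.Agent.Lib.MP_ac41cd_co.Cyc

/-!
# MP_ac41cd_co: girth of the graph of a good host
-/

set_option autoImplicit false

namespace Pool.Agent.MP_ac41cd_co

open Finset

variable {V : Type} {r : ℕ}

section
variable {A : Finset V} {x : Fin r → V → V}
  (hAB : ∀ a ∈ A, ∀ b ∈ A, ∀ i, x i a ≠ b)
  (hpart : ∀ a ∈ A, ∀ b ∈ A, ∀ i j, i ≠ j → x i a ≠ x j b)
  (hlin : ∀ a ∈ A, ∀ b ∈ A, a ≠ b → ∀ i j, x i a = x i b → x j a = x j b → i = j)

include hAB in
lemma even_closed {u : V} (p : (HG A x).Walk u u) : Even p.length := by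
  classical
  let c : (HG A x).Coloring Bool := SimpleGraph.Coloring.mk (fun v => decide (v ∈ A)) (by
    intro v w h h'
    have h1 := HG_adj_mem hAB h
    simp only [decide_eq_decide] at h'
    tauto)
  rw [c.even_length_iff_congr p]

include hAB in
lemma six_cycle {u : V} (p : (HG A x).Walk u u) (hp : p.IsCycle) (h6 : p.length = 6) :
    ∃ w0 w1 w2 w3 w4 w5, w0 ∈ A ∧ (HG A x).Adj w0 w1 ∧ (HG A x).Adj w1 w2 ∧
      (HG A x).Adj w2 w3 ∧ (HG A x).Adj w3 w4 ∧ (HG A x).Adj w4 w5 ∧ (HG A x).Adj w5 w0 ∧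
      w0 ≠ w2 ∧ w2 ≠ w4 ∧ w4 ≠ w0 ∧ w1 ≠ w3 ∧ w3 ≠ w5 ∧ w5 ≠ w1 ∧
      ∀ v ∈ p.support, v = w0 ∨ v = w1 ∨ v = w2 ∨ v = w3 ∨ v = w4 ∨ v = w5 := by
  have a01 := p.adj_getVert_succ (i := 0) (by omega)
  have a12 := p.adj_getVert_succ (i := 1) (by omega)
  have a23 := p.adj_getVert_succ (i := 2) (by omega)
  have a34 := p.adj_getVert_succ (i := 3) (by omega)
  have a45 := p.adj_getVert_succ (i := 4) (by omega)
  have a50 := p.adj_getVert_succ (i := 5) (by omega)
  have e6 : p.getVert (5 + 1) = p.getVert 0 := by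
    have : p.getVert (5 + 1) = u := by
      have := p.getVert_length
      rw [h6] at this
      exact this
    rw [this, SimpleGraph.Walk.getVert_zero]
  rw [e6] at a50
  have hinj := hp.getVert_injOn'
  have hn : ∀ i j, i ≤ 5 → j ≤ 5 → i ≠ j → p.getVert i ≠ p.getVert j := by
    intro i j hi hj hij h
    exact hij (hinj (by rw [Set.mem_ofPred_eq]; omega) (by rw [Set.mem_ofPred_eq]; omega) h)
  have hsupp : ∀ v ∈ p.support, ∃ i, i ≤ 5 ∧ p.getVert i = v := by
    intro v hv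
    obtain ⟨i, hi, hle⟩ := SimpleGraph.Walk.mem_support_iff_exists_getVert.1 hv
    rcases Nat.lt_or_ge i 6 with h | h
    · exact ⟨i, by omega, hi⟩
    · have : i = 5 + 1 := by omega
      subst this
      exact ⟨0, by omega, e6.symm.trans hi⟩
  by_cases h0 : p.getVert 0 ∈ A
  · refine ⟨p.getVert 0, p.getVert 1, p.getVert 2, p.getVert 3, p.getVert 4, p.getVert 5,
      h0, a01, a12, a23, a34, a45, a50, hn 0 2 (by omega) (by omega) (by omega),
      hn 2 4 (by omega) (by omega) (by omega), hn 4 0 (by omega) (by omega) (by omega),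
      hn 1 3 (by omega) (by omega) (by omega), hn 3 5 (by omega) (by omega) (by omega),
      hn 5 1 (by omega) (by omega) (by omega), ?_⟩
    intro v hv
    obtain ⟨i, hi, rfl⟩ := hsupp v hv
    interval_cases i <;> simp
  · have h1 : p.getVert 1 ∈ A := by
      by_contra h
      exact h0 ((HG_adj_mem hAB a01).2 h)
    refine ⟨p.getVert 1, p.getVert 2, p.getVert 3, p.getVert 4, p.getVert 5, p.getVert 0,
      h1, a12, a23, a34, a45, a50, a01, hn 1 3 (by omega) (by omega) (by omega),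
      hn 3 5 (by omega) (by omega) (by omega), hn 5 1 (by omega) (by omega) (by omega),
      hn 2 4 (by omega) (by omega) (by omega), hn 4 0 (by omega) (by omega) (by omega),
      hn 0 2 (by omega) (by omega) (by omega), ?_⟩
    intro v hv
    obtain ⟨i, hi, rfl⟩ := hsupp v hv
    interval_cases i <;> simp

include hAB hpart hlin in
lemma length_ge_six {u : V} (p : (HG A x).Walk u u) (hp : p.IsCycle) : 6 ≤ p.length := by
  have h3 := hp.three_le_length
  have heven := even_closed hAB p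
  by_contra hlt
  have h4 : p.length = 4 := by
    obtain ⟨k, hk⟩ := heven
    omega
  have a01 := p.adj_getVert_succ (i := 0) (by omega)
  have a12 := p.adj_getVert_succ (i := 1) (by omega)
  have a23 := p.adj_getVert_succ (i := 2) (by omega)
  have a30 := p.adj_getVert_succ (i := 3) (by omega)
  have e4 : p.getVert (3 + 1) = p.getVert 0 := by
    have : p.getVert (3 + 1) = u := by
      have := p.getVert_length
      rw [h4] at this
      exact this
    rw [this, SimpleGraph.Walk.getVert_zero]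
  rw [e4] at a30
  have hinj := hp.getVert_injOn'
  have hn : ∀ i j, i ≤ 3 → j ≤ 3 → i ≠ j → p.getVert i ≠ p.getVert j := by
    intro i j hi hj hij h
    exact hij (hinj (by rw [Set.mem_ofPred_eq]; omega) (by rw [Set.mem_ofPred_eq]; omega) h)
  exact no_C4 hAB hpart hlin a01 a12 a23 a30 (hn 0 2 (by omega) (by omega) (by omega))
    (hn 1 3 (by omega) (by omega) (by omega))

end

section
variable {A : Finset V} {x : Fin r → V → V} {i₀ : Fin r}
  (hAB : ∀ a ∈ A, ∀ b ∈ A, ∀ i, x i a ≠ b)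
  (hpart : ∀ a ∈ A, ∀ b ∈ A, ∀ i j, i ≠ j → x i a ≠ x j b)
  (hlin : ∀ a ∈ A, ∀ b ∈ A, a ≠ b → ∀ i j, x i a = x i b → x j a = x j b → i = j)
  (hbad : ∀ a ∈ A, ∀ b ∈ A, ∀ c ∈ A, a ≠ b → x i₀ a = x i₀ b → ∀ j k, j ≠ i₀ → k ≠ i₀ → j ≠ k →
      x j c = x j a → x k c = x k b → False)

include hAB hpart hbad in
/-- The parts used by a 6-cycle are three distinct parts, all different from `i₀`. -/
lemma six_parts {u : V} (p : (HG A x).Walk u u) (hp : p.IsCycle) (h6 : p.length = 6) :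
    ∃ i j k, i ≠ j ∧ j ≠ k ∧ k ≠ i ∧ i ≠ i₀ ∧ j ≠ i₀ ∧ k ≠ i₀ ∧
      ∀ v ∈ p.support, v ∈ A ∨ ∃ a ∈ A, v = x i a ∨ v = x j a ∨ v = x k a := by
  obtain ⟨w0, w1, w2, w3, w4, w5, h0, a01, a12, a23, a34, a45, a50, n02, n24, n40, n13, n35, n51,
    hs⟩ := six_cycle hAB p hp h6
  obtain ⟨h2, h4, i, j, k, hij, hjk, hki, e1, e2, e3, e4, e5, e6⟩ :=
    hex_A hAB hpart h0 a01 a12 a23 a34 a45 a50 n13 n35 n51
  have hi : i ≠ i₀ := by
    rintro rfl
    exact hbad w0 h0 w2 h2 w4 h4 n02 (e1.trans e2.symm) k j hki hij.symm hjk.symm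
      (e5.trans e6.symm) (e4.trans e3.symm)
  have hj : j ≠ i₀ := by
    rintro rfl
    exact hbad w2 h2 w4 h4 w0 h0 n24 (e3.trans e4.symm) i k hij hjk.symm hki.symm
      (e1.trans e2.symm) (e6.trans e5.symm)
  have hk : k ≠ i₀ := by
    rintro rfl
    exact hbad w4 h4 w0 h0 w2 h2 n40 (e5.trans e6.symm) j i hjk hki.symm hij.symm
      (e3.trans e4.symm) (e2.trans e1.symm)
  refine ⟨i, j, k, hij, hjk, hki, hi, hj, hk, ?_⟩
  intro v hv
  rcases hs v hv with rfl | rfl | rfl | rfl | rfl | rfl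
  · exact Or.inl h0
  · exact Or.inr ⟨w0, h0, Or.inl e1.symm⟩
  · exact Or.inl h2
  · exact Or.inr ⟨w2, h2, Or.inr (Or.inl e3.symm)⟩
  · exact Or.inl h4
  · exact Or.inr ⟨w4, h4, Or.inr (Or.inr e5.symm)⟩

end

end Pool.Agent.MP_ac41cd_co
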