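import Mathlib

/-!
# MP_ac41cd_co: a Ramsey type lemma for down-closed families
-/

set_option autoImplicit false

namespace Pool.Agent.MP_ac41cd_co

open Finset

variable {ι : Type*} [DecidableEq ι]

open Classical in
/-- Greedy independent set. -/
lemma greedy (E : ι → ι → Prop) (hsymm : ∀ i j, E i j → E j i) (N : ℕ) (hN : 1 ≤ N) :
    ∀ (r : ℕ) (U : Finset ι), (∀ i ∈ U, (U.filter (fun j => j ≠ i ∧ E i j)).card < N) →
      r * N ≤ U.card → ∃ W ⊆ U, W.card = r ∧ ∀ i ∈ W, ∀ j ∈ W, i ≠ j → ¬ E i j := by
  intro r
  induction r with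
  | zero => intro U _ _; exact ⟨∅, by simp, by simp, by simp⟩
  | succ r ih =>
    intro U hU hcard
    have hne : U.Nonempty := by
      rw [← card_pos]
      have : 0 < (r + 1) * N := by positivity
      omega
    obtain ⟨i, hi⟩ := hne
    set F := U.filter (fun j => j ≠ i ∧ E i j) with hF
    set U' := (U.erase i) \ F with hU'
    have hsub : U' ⊆ U := sdiff_subset.trans (erase_subset _ _)
    have hc : r * N ≤ U'.card := by
      have h1 : (U.erase i).card - F.card ≤ U'.card := le_card_sdiff _ _
      have h2 : (U.erase i).card = U.card - 1 := card_erase_of_mem hi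
      have h3 := hU i hi
      rw [← hF] at h3
      have h4 : (r + 1) * N = r * N + N := by ring
      omega
    obtain ⟨W, hW1, hW2, hW3⟩ := ih U' (fun j hj => lt_of_le_of_lt
      (card_le_card (filter_subset_filter _ hsub)) (hU j (hsub hj))) hc
    have hiW : i ∉ W := fun h => by
      have := hW1 h
      rw [hU'] at this
      simp at this
    refine ⟨insert i W, insert_subset hi (hW1.trans hsub), by
      rw [card_insert_of_notMem hiW, hW2], ?_⟩
    have key : ∀ j ∈ W, ¬ E i j := by
      intro j hj hE
      have := hW1 hj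
      rw [hU', mem_sdiff, mem_erase, hF, mem_filter] at this
      exact this.2 ⟨this.1.2, this.1.1, hE⟩
    intro a ha b hb hab
    rw [mem_insert] at ha hb
    rcases ha with rfl | ha <;> rcases hb with rfl | hb
    · exact absurd rfl hab
    · exact key b hb
    · exact fun h => key a ha (hsymm _ _ h)
    · exact hW3 a ha b hb hab

open Classical in
/-- In a family containing `S₀ ∪ {i}` for many `i`, and without large members, there is `S₁` and
`r` indices such that `S₁ ∪ {i}` is always in the family and `S₁ ∪ {i, j}` never is. -/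
lemma ramseyLink (H : Finset ι → Prop) (r : ℕ) (hr : 1 ≤ r) :
    ∀ (k : ℕ) (S₀ U : Finset ι), Disjoint S₀ U → r ^ k ≤ U.card → (∀ i ∈ U, H (insert i S₀)) →
      (∀ S, H S → S.card < S₀.card + 1 + k) →
      ∃ S₁ W : Finset ι, Disjoint S₁ W ∧ W.card = r ∧ (∀ i ∈ W, H (insert i S₁)) ∧
        ∀ i ∈ W, ∀ j ∈ W, i ≠ j → ¬ H (insert i (insert j S₁)) := by
  intro k
  induction k with
  | zero =>
    intro S₀ U hdis hcard hH hS
    have hne : U.Nonempty := by rw [← card_pos]; simpa using hcard
    obtain ⟨i, hi⟩ := hne
    have h1 := hS _ (hH i hi)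
    rw [card_insert_of_notMem (fun h => (disjoint_left.1 hdis h) hi)] at h1
    omega
  | succ k ih =>
    intro S₀ U hdis hcard hH hS
    by_cases h : ∃ i ∈ U, r ^ k ≤
        (U.filter (fun j => j ≠ i ∧ H (insert i (insert j S₀)))).card
    · obtain ⟨i, hi, hcar⟩ := h
      have hi0 : i ∉ S₀ := fun h => (disjoint_left.1 hdis h) hi
      refine ih (insert i S₀) (U.filter (fun j => j ≠ i ∧ H (insert i (insert j S₀)))) ?_ hcar
        ?_ ?_
      · rw [disjoint_left]
        intro j hj hj'
        rw [mem_filter] at hj'
        rw [mem_insert] at hj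
        rcases hj with rfl | hj
        · exact hj'.2.1 rfl
        · exact disjoint_left.1 hdis hj hj'.1
      · intro j hj
        rw [mem_filter] at hj
        rw [Finset.insert_comm]
        exact hj.2.2
      · intro S hHS
        have := hS S hHS
        rw [card_insert_of_notMem hi0]
        omega
    · push Not at h
      obtain ⟨W, hW1, hW2, hW3⟩ := greedy (fun i j => H (insert i (insert j S₀)))
        (fun i j hij => by rw [Finset.insert_comm]; exact hij) (r ^ k) (Nat.one_le_pow _ _ hr) r U h
        (by rw [← pow_succ']; exact hcard)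
      exact ⟨S₀, W, disjoint_of_subset_right hW1 hdis, hW2, fun i hi => hH i (hW1 hi), hW3⟩

end Pool.Agent.MP_ac41cd_co
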