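import Mathlib
import Pool.Agent.Lib.MP_ac41cd_co.Defs
import Pool.Agent.Lib.MP_ac41cd_co.Ram

/-!
# MP_ac41cd_co: from a preliminary host to a linear host or a large complete bipartite graph
-/

set_option autoImplicit false

namespace Pool.Agent.MP_ac41cd_co

open Finset Classical

/-- The restriction of the tuple of `a` to the coordinates in `S`. -/
noncomputable def key {V : Type} {d : ℕ} (x : Fin d → V → V) (S : Finset (Fin d)) (a : V) :
    Fin d → Option V := fun i => if i ∈ S then some (x i a) else none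

lemma key_eq {V : Type} {d : ℕ} {x : Fin d → V → V} {S : Finset (Fin d)} {a b : V} :
    key x S a = key x S b ↔ ∀ i ∈ S, x i a = x i b := by
  constructor
  · intro h i hi
    have := congrFun h i
    simpa [key, hi] using this
  · intro h
    funext i
    by_cases hi : i ∈ S
    · simp [key, hi, h i hi]
    · simp [key, hi]

/-- From a preliminary host to a linear host or a complete bipartite graph. -/
theorem pre_host (r D s m : ℕ) (hr : 1 ≤ r) (hs : 1 ≤ s) (hD : D ≤ s) :
    ∃ d M : ℕ, ∀ (V : Type) (G : SimpleGraph V), Pre G d M → Host G r D ∨ KK G s m := by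
  obtain ⟨c, hc, hhom⟩ := homogenise s hs (2 ^ (r ^ m))
  refine ⟨r ^ m, c, fun V G ⟨A, B, x, hadj, hB, hdis, hpart, hcard⟩ => ?_⟩
  have hAne : A.Nonempty := by rw [← card_pos]; omega
  obtain ⟨A', h1, h2, h3, h4⟩ := hhom V _ (Finset (Fin (r ^ m))) (key x) univ A (by simp) hAne
  set H : Finset (Fin (r ^ m)) → Prop := fun S => ∀ a ∈ A', s ≤ (fib (key x S) A' a).card with hH
  have hown : ∀ S, ¬ H S → Set.InjOn (key x S) A' := by
    intro S hS
    rcases h4 S (mem_univ _) with h | h
    · exact h
    · exact absurd h hS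
  by_cases hlarge : ∃ S, H S ∧ m ≤ S.card
  · right
    obtain ⟨S, hS, hm⟩ := hlarge
    obtain ⟨a, ha⟩ := h2
    obtain ⟨P, hP, hPc⟩ := exists_subset_card_eq (hS a ha)
    obtain ⟨S', hS', hSc⟩ := exists_subset_card_eq hm
    have hinj : Set.InjOn (fun i => x i a) (S' : Set (Fin (r ^ m))) := by
      intro i _ j _ hij
      by_contra hne
      exact hpart a (h1 ha) a (h1 ha) i j hne hij
    refine ⟨P, S'.image (fun i => x i a), hPc, by rw [card_image_of_injOn hinj, hSc], ?_, ?_⟩
    · rw [disjoint_left]
      intro p hp hp'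
      obtain ⟨i, _, rfl⟩ := mem_image.1 hp'
      exact disjoint_left.1 hdis (h1 (mem_fib.1 (hP hp)).1) (hB a (h1 ha) i)
    · intro p hp q hq
      obtain ⟨i, hi, rfl⟩ := mem_image.1 hq
      have hpf := mem_fib.1 (hP hp)
      rw [← key_eq.1 hpf.2 i (hS' hi)]
      exact hadj p (h1 hpf.1) i
  · left
    push Not at hlarge
    have hsing : ∀ i ∈ (univ : Finset (Fin (r ^ m))), H (insert i ∅) := by
      intro i _
      by_contra hcon
      have hinj := hown _ hcon
      have hinj' : Set.InjOn (x i) A' := by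
        intro a ha b hb hab
        apply hinj ha hb
        rw [key_eq]
        simpa using hab
      have h5 : A'.card ≤ B.card := by
        rw [← card_image_of_injOn hinj']
        exact card_le_card (image_subset_iff.2 fun a ha => hB a (h1 ha) i)
      have h6 : c * A'.card ≤ c * B.card := Nat.mul_le_mul_left _ h5
      omega
    obtain ⟨S, W, hSW, hW, hW1, hW2⟩ := ramseyLink H r hr m ∅ univ (by simp) (by simp) hsing
      (fun S hS => by have := hlarge S hS; simp; omega)
    obtain ⟨a₀, ha₀⟩ := h2
    have hLsub : fib (key x S) A' a₀ ⊆ A' := fib_subset _ _ _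
    have hL : ∀ a ∈ fib (key x S) A' a₀, ∀ j ∈ S, x j a = x j a₀ := fun a ha =>
      key_eq.1 (mem_fib.1 ha).2
    refine ⟨fib (key x S) A' a₀, fun k => x (W.orderEmbOfFin hW k), ⟨a₀, mem_fib.2 ⟨ha₀, rfl⟩⟩,
      ?_, ?_, ?_, ?_, ?_⟩
    · exact fun a ha k => hadj a (h1 (hLsub ha)) _
    · intro a ha b hb k h
      exact disjoint_left.1 hdis (h1 (hLsub hb)) (h ▸ hB a (h1 (hLsub ha)) _)
    · intro a ha b hb i j hij
      exact hpart a (h1 (hLsub ha)) b (h1 (hLsub hb)) _ _
        (fun h => hij ((W.orderEmbOfFin hW).injective h))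
    · intro a ha b hb hab i j hi hj
      by_contra hij
      have hne : W.orderEmbOfFin hW i ≠ W.orderEmbOfFin hW j :=
        fun h => hij ((W.orderEmbOfFin hW).injective h)
      have := hown _ (hW2 _ (orderEmbOfFin_mem W hW i) _ (orderEmbOfFin_mem W hW j) hne)
        (hLsub ha) (hLsub hb)
      apply hab (this _)
      rw [key_eq]
      intro k hk
      simp only [mem_insert] at hk
      rcases hk with rfl | rfl | hk
      · exact hi
      · exact hj
      · rw [hL a ha k hk, hL b hb k hk]
    · intro a ha k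
      refine hD.trans ((hW1 _ (orderEmbOfFin_mem W hW k) a (hLsub ha)).trans (card_le_card ?_))
      intro b hb
      rw [mem_fib, key_eq] at hb
      rw [mem_fib, mem_fib, key_eq]
      refine ⟨⟨hb.1, fun j hj => ?_⟩, hb.2 _ (mem_insert_self _ _)⟩
      rw [hb.2 j (mem_insert_of_mem hj), hL a ha j hj]

end Pool.Agent.MP_ac41cd_co
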