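import Mathlib
import Pool.Agent.Lib.MP_ac41cd_co.Defs

/-!
# MP_ac41cd_co: the net `(ZMod q)²` with `r` slopes inside a complete bipartite graph
-/

set_option autoImplicit false

namespace Pool.Agent.MP_ac41cd_co

open Finset Classical

theorem net_host (r D q : ℕ) (hq : q.Prime) (hr : r ≤ q) (hD : D ≤ q) {V : Type}
    (G : SimpleGraph V) (h : KK G (q * q) (r * q)) : Host G r D := by
  haveI : Fact q.Prime := ⟨hq⟩
  haveI : NeZero q := ⟨hq.ne_zero⟩
  obtain ⟨P, Q, hP, hQ, hdis, hadj⟩ := h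
  have c1 : Fintype.card P = Fintype.card (ZMod q × ZMod q) := by
    simp [hP, ZMod.card]
  have c2 : Fintype.card Q = Fintype.card (Fin r × ZMod q) := by
    simp [hQ, ZMod.card]
  let e1 : P ≃ ZMod q × ZMod q := Fintype.equivOfCardEq c1
  let e2 : Q ≃ Fin r × ZMod q := Fintype.equivOfCardEq c2
  let x : Fin r → V → V := fun i a =>
    if h : a ∈ P then (e2.symm (i, (e1 ⟨a, h⟩).2 - ((i : ℕ) : ZMod q) * (e1 ⟨a, h⟩).1) : V) else a
  have hx : ∀ i a (h : a ∈ P), x i a =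
      (e2.symm (i, (e1 ⟨a, h⟩).2 - ((i : ℕ) : ZMod q) * (e1 ⟨a, h⟩).1) : V) := by
    intro i a h
    simp only [x, h, dif_pos]
  have hxQ : ∀ i a, a ∈ P → x i a ∈ Q := by
    intro i a h
    rw [hx i a h]
    exact Subtype.property _
  have hxe : ∀ i a (ha : a ∈ P) j b (hb : b ∈ P), x i a = x j b →
      i = j ∧ (e1 ⟨a, ha⟩).2 - ((i : ℕ) : ZMod q) * (e1 ⟨a, ha⟩).1 =
        (e1 ⟨b, hb⟩).2 - ((j : ℕ) : ZMod q) * (e1 ⟨b, hb⟩).1 := by
    intro i a ha j b hb hab
    rw [hx i a ha, hx j b hb] at hab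
    have := e2.symm.injective (Subtype.ext hab)
    exact ⟨congrArg Prod.fst this, congrArg Prod.snd this⟩
  refine ⟨P, x, ?_, ?_, ?_, ?_, ?_, ?_⟩
  · rw [← card_pos, hP]
    exact Nat.mul_pos hq.pos hq.pos
  · exact fun a ha i => hadj a ha _ (hxQ i a ha)
  · intro a ha b hb i hab
    exact disjoint_left.1 hdis hb (hab ▸ hxQ i a ha)
  · intro a ha b hb i j hij hab
    exact hij (hxe i a ha j b hb hab).1
  · intro a ha b hb hab i j hi hj
    by_contra hij
    apply hab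
    have h1 := (hxe i a ha i b hb hi).2
    have h2 := (hxe j a ha j b hb hj).2
    have h3 : (((i : ℕ) : ZMod q) - ((j : ℕ) : ZMod q)) *
        ((e1 ⟨a, ha⟩).1 - (e1 ⟨b, hb⟩).1) = 0 := by
      linear_combination h2 - h1
    have h4 : (((i : ℕ) : ZMod q) - ((j : ℕ) : ZMod q)) ≠ 0 := by
      rw [sub_ne_zero]
      intro h
      rw [ZMod.natCast_eq_natCast_iff] at h
      exact hij (Fin.ext (Nat.ModEq.eq_of_lt_of_lt h (i.2.trans_le hr) (j.2.trans_le hr)))
    have h5 : (e1 ⟨a, ha⟩).1 = (e1 ⟨b, hb⟩).1 := by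
      rcases mul_eq_zero.1 h3 with h | h
      · exact absurd h h4
      · exact sub_eq_zero.1 h
    have h6 : (e1 ⟨a, ha⟩).2 = (e1 ⟨b, hb⟩).2 := by
      rw [h5] at h1
      linear_combination h1
    have h7 : (⟨a, ha⟩ : P) = ⟨b, hb⟩ := e1.injective (Prod.ext h5 h6)
    exact congrArg Subtype.val h7
  · intro a ha i
    refine hD.trans ?_
    let g : ZMod q → V := fun t => (e1.symm (t, ((e1 ⟨a, ha⟩).2 - ((i : ℕ) : ZMod q) *
      (e1 ⟨a, ha⟩).1) + ((i : ℕ) : ZMod q) * t) : V)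
    have hg : Function.Injective g := by
      intro t u htu
      have := e1.symm.injective (Subtype.ext htu)
      exact congrArg Prod.fst this
    have : (univ.image g).card = q := by
      rw [card_image_of_injective _ hg, card_univ, ZMod.card]
    rw [← this]
    apply card_le_card
    intro b hb
    obtain ⟨t, _, rfl⟩ := mem_image.1 hb
    have hbP : g t ∈ P := Subtype.property _
    rw [mem_fib]
    refine ⟨hbP, ?_⟩
    rw [hx i _ hbP, hx i a ha]
    have h8 : e1 ⟨g t, hbP⟩ = (t, ((e1 ⟨a, ha⟩).2 - ((i : ℕ) : ZMod q) *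
      (e1 ⟨a, ha⟩).1) + ((i : ℕ) : ZMod q) * t) := by
      have : (⟨g t, hbP⟩ : P) = e1.symm (t, ((e1 ⟨a, ha⟩).2 - ((i : ℕ) : ZMod q) *
        (e1 ⟨a, ha⟩).1) + ((i : ℕ) : ZMod q) * t) := Subtype.ext rfl
      rw [this, Equiv.apply_symm_apply]
    rw [h8]
    simp

/-- From preliminary hosts to linear hosts. -/
theorem exists_prime_for (r D : ℕ) : ∃ q, q.Prime ∧ r ≤ q ∧ D ≤ q := by
  obtain ⟨q, h1, h2⟩ := Nat.exists_infinite_primes (max r D)
  exact ⟨q, h2, (le_max_left _ _).trans h1, (le_max_right _ _).trans h1⟩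

end Pool.Agent.MP_ac41cd_co
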