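import Mathlib
import Pool.Agent.Lib.MP_ac41cd_co.Defs
import Pool.Agent.Lib.MP_ac41cd_co.Count

/-!
# MP_ac41cd_co: random colouring gives a preliminary host
-/

set_option autoImplicit false

namespace Pool.Agent.MP_ac41cd_co

open Finset Classical

lemma exists_pow_small (L c : ℕ) (hL : 1 ≤ L) : ∃ N : ℕ, ∀ k, N ≤ k →
    c * (L - 1) ^ k ≤ L ^ k := by
  have hLpos : (0 : ℝ) < L := by exact_mod_cast hL
  have hlt : ((L : ℝ) - 1) / L < 1 := by
    rw [div_lt_one hLpos]; linarith
  obtain ⟨N, hN⟩ := exists_pow_lt_of_lt_one (show (0 : ℝ) < 1 / (c + 1) by positivity) hlt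
  refine ⟨N, ?_⟩
  have hbase : c * (L - 1) ^ N ≤ L ^ N := by
    have h1 : ((L - 1 : ℕ) : ℝ) = (L : ℝ) - 1 := by
      rw [Nat.cast_sub hL]; simp
    have h2 : (c : ℝ) * ((L : ℝ) - 1) ^ N ≤ (L : ℝ) ^ N := by
      rw [div_pow, div_lt_div_iff₀ (by positivity) (by positivity)] at hN
      have h3 : 0 ≤ ((L : ℝ) - 1) ^ N := by
        apply pow_nonneg
        have : (1 : ℝ) ≤ L := by exact_mod_cast hL
        linarith
      nlinarith
    have : ((c * (L - 1) ^ N : ℕ) : ℝ) ≤ ((L ^ N : ℕ) : ℝ) := by
      push_cast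
      rw [h1]
      exact h2
    exact_mod_cast this
  intro k hk
  obtain ⟨j, rfl⟩ := Nat.exists_eq_add_of_le hk
  rw [pow_add, pow_add, ← mul_assoc]
  exact Nat.mul_le_mul hbase (Nat.pow_le_pow_left (Nat.sub_le _ _) _)

/-- Every graph of large minimum degree has a preliminary host. -/
theorem sampling (d M : ℕ) : ∃ N : ℕ, ∀ (V : Type) [Fintype V] [Nonempty V] (G : SimpleGraph V),
    (∀ v, N ≤ (G.neighborSet v).ncard) → Pre G d M := by
  set L := 4 * d * (M + 1) + 1 with hLdef
  have hL : 0 < L := by omega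
  have hLd : 4 * d + 1 ≤ L := by rw [hLdef]; nlinarith
  have hLM : 4 * d * M ≤ L := by rw [hLdef]; nlinarith
  obtain ⟨N, hN⟩ := exists_pow_small L (4 * d) hL
  refine ⟨N, fun V _ _ G hdeg => ?_⟩
  set n := Fintype.card V with hn
  have hnpos : 0 < n := Fintype.card_pos
  let nb : V → Finset V := fun v => univ.filter (fun w => G.Adj v w)
  have hnb : ∀ v, N ≤ (nb v).card := by
    intro v
    have := hdeg v
    rw [Set.ncard_eq_toFinset_card'] at this
    refine this.trans (card_le_card ?_)
    intro w hw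
    simpa [nb] using hw
  let U : (V → Fin L) → Finset V := fun f => univ.filter (fun v => (f v).val < d)
  let Z : Fin L → (V → Fin L) → Finset V := fun i f =>
    univ.filter (fun v => ∀ w ∈ nb v, f w ∈ ({i}ᶜ : Finset (Fin L)))
  let A : (V → Fin L) → Finset V := fun f =>
    univ.filter (fun v => d ≤ (f v).val ∧ ∀ i : Fin d, ∃ w, G.Adj v w ∧ (f w).val = i.val)
  have hi : ∀ i : Fin d, i.val < L := fun i => by have := i.2; omega
  -- covering
  have hcover : ∀ f, n ≤ (A f).card + (U f).card + ∑ i : Fin d, (Z ⟨i.val, hi i⟩ f).card := by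
    intro f
    have h1 : (univ : Finset V) ⊆
        (A f ∪ U f) ∪ (univ : Finset (Fin d)).biUnion (fun i => Z ⟨i.val, hi i⟩ f) := by
      intro v _
      by_cases hvU : (f v).val < d
      · simp [U, hvU]
      · by_cases hvA : ∀ i : Fin d, ∃ w, G.Adj v w ∧ (f w).val = i.val
        · refine mem_union_left _ (mem_union_left _ ?_)
          simp only [A, mem_filter, mem_univ, true_and]
          exact ⟨by omega, hvA⟩
        · push Not at hvA
          obtain ⟨i, hi'⟩ := hvA
          refine mem_union_right _ (mem_biUnion.2 ⟨i, mem_univ _, ?_⟩)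
          simp only [Z, mem_filter, mem_univ, true_and, mem_compl, mem_singleton, nb]
          intro w hw h
          exact hi' w hw (by rw [h])
    have h2 := card_le_card h1
    rw [card_univ, ← hn] at h2
    refine h2.trans ((card_union_le _ _).trans ?_)
    exact Nat.add_le_add (card_union_le _ _) card_biUnion_le
  -- sums
  have hsumU : ∑ f : V → Fin L, (U f).card = n * (d * L ^ (n - 1)) := by
    simp only [U, card_filter]
    rw [sum_comm]
    have : ∀ v ∈ (univ : Finset V), (∑ f : V → Fin L, if (f v).val < d then 1 else 0) =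
        d * L ^ (n - 1) := by
      intro v _
      rw [← card_filter]
      have h := count_constr L ({v} : Finset V) (univ.filter (fun c : Fin L => c.val < d))
      have hc : (univ.filter (fun c : Fin L => c.val < d)).card = d := by
        have : d ≤ L := by omega
        rw [Fin.card_filter_val_lt]
        omega
      rw [hc] at h
      simpa using h
    rw [sum_congr rfl this, sum_const, smul_eq_mul, card_univ]
  have hsumZ : ∀ i : Fin L, 4 * d * ∑ f : V → Fin L, (Z i f).card ≤ n * L ^ n := by
    intro i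
    simp only [Z, card_filter]
    rw [sum_comm, mul_sum]
    have : ∀ v ∈ (univ : Finset V), 4 * d * (∑ f : V → Fin L,
        if ∀ w ∈ nb v, f w ∈ ({i}ᶜ : Finset (Fin L)) then 1 else 0) ≤ L ^ n := by
      intro v _
      rw [← card_filter]
      rw [count_constr L (nb v) ({i}ᶜ : Finset (Fin L))]
      have hc : (({i}ᶜ : Finset (Fin L))).card = L - 1 := by
        rw [card_compl, card_singleton, Fintype.card_fin]
      rw [hc, ← mul_assoc]
      have hle : (nb v).card ≤ n := card_le_univ _
      calc 4 * d * (L - 1) ^ (nb v).card * L ^ (n - (nb v).card)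
          ≤ L ^ (nb v).card * L ^ (n - (nb v).card) :=
            Nat.mul_le_mul_right _ (hN _ (hnb v))
        _ = L ^ n := by rw [← pow_add]; congr 1; omega
    calc _ ≤ ∑ v : V, L ^ n := sum_le_sum this
      _ = n * L ^ n := by rw [sum_const, smul_eq_mul, card_univ]
  obtain ⟨f, hf⟩ : ∃ f : V → Fin L, M * (U f).card < (A f).card := by
    by_contra hcon
    push Not at hcon
    have h1 : ∑ f : V → Fin L, (A f).card ≤ M * (n * (d * L ^ (n - 1))) := by
      rw [← hsumU, mul_sum]
      exact sum_le_sum fun f _ => hcon f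
    have h2 : L ^ n * n ≤ ∑ f : V → Fin L, (A f).card + n * (d * L ^ (n - 1)) +
        ∑ i : Fin d, ∑ f : V → Fin L, (Z ⟨i.val, hi i⟩ f).card := by
      rw [← hsumU, sum_comm, ← sum_add_distrib, ← sum_add_distrib]
      calc L ^ n * n = ∑ f : V → Fin L, n := by
            rw [sum_const, card_univ, smul_eq_mul, Fintype.card_fun, Fintype.card_fin]
        _ ≤ _ := sum_le_sum fun f _ => hcover f
    have h3 : 4 * ∑ i : Fin d, ∑ f : V → Fin L, (Z ⟨i.val, hi i⟩ f).card ≤ n * L ^ n := by
      rcases Nat.eq_zero_or_pos d with hd | hd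
      · subst hd
        simp
      · have h4 : d * (4 * ∑ i : Fin d, ∑ f : V → Fin L, (Z ⟨i.val, hi i⟩ f).card) ≤
            d * (n * L ^ n) := by
          calc d * (4 * ∑ i : Fin d, ∑ f : V → Fin L, (Z ⟨i.val, hi i⟩ f).card)
              = ∑ i : Fin d, 4 * d * ∑ f : V → Fin L, (Z ⟨i.val, hi i⟩ f).card := by
                rw [← mul_sum]; ring
            _ ≤ ∑ i : Fin d, n * L ^ n := sum_le_sum fun i _ => hsumZ _
            _ = d * (n * L ^ n) := by
                rw [sum_const, smul_eq_mul, card_univ, Fintype.card_fin]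
        exact Nat.le_of_mul_le_mul_left h4 hd
    have h5 : L ^ n = L * L ^ (n - 1) := by
      rw [← pow_succ']; congr 1; omega
    have hP : 0 < n * L ^ (n - 1) := by positivity
    rw [h5] at h2 h3
    set P := n * L ^ (n - 1) with hPdef
    have h6 : 4 * d * M * P ≤ L * P := Nat.mul_le_mul_right _ hLM
    have h7 : (4 * d + 1) * P ≤ L * P := Nat.mul_le_mul_right _ hLd
    have e1 : M * (n * (d * L ^ (n - 1))) = d * M * P := by rw [hPdef]; ring
    have e2 : n * (d * L ^ (n - 1)) = d * P := by rw [hPdef]; ring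
    have e3 : L * L ^ (n - 1) * n = L * P := by rw [hPdef]; ring
    have e4 : n * (L * L ^ (n - 1)) = L * P := by rw [hPdef]; ring
    rw [e1] at h1
    rw [e2, e3] at h2
    rw [e4] at h3
    nlinarith
  -- the host
  let x : Fin d → V → V := fun i a =>
    if h : ∃ w, G.Adj a w ∧ (f w).val = i.val then h.choose else a
  have hx : ∀ a ∈ A f, ∀ i, G.Adj a (x i a) ∧ (f (x i a)).val = i.val := by
    intro a ha i
    have h : ∃ w, G.Adj a w ∧ (f w).val = i.val := (mem_filter.1 ha).2.2 i
    have : x i a = h.choose := by simp only [x, h, dif_pos]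
    rw [this]
    exact h.choose_spec
  refine ⟨A f, U f, x, fun a ha i => (hx a ha i).1, ?_, ?_, ?_, hf⟩
  · intro a ha i
    refine mem_filter.2 ⟨mem_univ _, ?_⟩
    rw [(hx a ha i).2]
    exact i.2
  · rw [disjoint_left]
    intro v hv hv'
    have h1 := (mem_filter.1 hv).2.1
    have h2 := (mem_filter.1 hv').2
    omega
  · intro a ha b hb i j hij hab
    apply hij
    apply Fin.ext
    rw [← (hx a ha i).2, ← (hx b hb j).2, hab]

end Pool.Agent.MP_ac41cd_co
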