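import Mathlib
import Pool.Agent.Lib.MP_ac41cd_co.Cyc2
import Pool.Agent.Lib.MP_ac41cd_co.Sample
import Pool.Agent.Lib.MP_ac41cd_co.Link
import Pool.Agent.Lib.MP_ac41cd_co.Net

/-!
# MP_ac41cd_co: every graph of large minimum degree has a good host
-/

set_option autoImplicit false

namespace Pool.Agent.MP_ac41cd_co

open Finset

/-- Every graph of large minimum degree contains a good host. -/
theorem exists_good (r R : ℕ) (hr : 1 ≤ r) : ∃ N : ℕ, ∀ (V : Type) [Fintype V] [Nonempty V]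
    (G : SimpleGraph V), (∀ v, N ≤ (G.neighborSet v).ncard) → Good G r R := by
  obtain ⟨D, hD⟩ := prune r R hr
  obtain ⟨q, hq, hrq, hDq⟩ := exists_prime_for r D
  obtain ⟨d, M, hlink⟩ := pre_host r D (q * q) (r * q) hr (Nat.mul_pos hq.pos hq.pos)
    (hDq.trans (Nat.le_mul_of_pos_left _ hq.pos))
  obtain ⟨N, hN⟩ := sampling d M
  refine ⟨N, fun V _ _ G hdeg => hD V G ?_⟩
  rcases hlink V G (hN V G hdeg) with h | h
  · exact h
  · exact net_host r D q hq hrq hDq G h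

section
variable {V : Type} {r : ℕ} {A : Finset V} {x : Fin r → V → V}
  (hAB : ∀ a ∈ A, ∀ b ∈ A, ∀ i, x i a ≠ b)
  (hpart : ∀ a ∈ A, ∀ b ∈ A, ∀ i j, i ≠ j → x i a ≠ x j b)

include hAB in
lemma nbr_A {a : V} (ha : a ∈ A) : (HG A x).neighborSet a = Set.range (fun i => x i a) := by
  ext v
  rw [SimpleGraph.mem_neighborSet, Set.mem_range]
  constructor
  · intro h
    exact HG_adj_A hAB h ha
  · rintro ⟨i, hi⟩
    exact (HG_adj hAB).2 (Or.inl ⟨ha, i, hi⟩)

include hAB hpart in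
lemma ncard_A {a : V} (ha : a ∈ A) : ((HG A x).neighborSet a).ncard = r := by
  rw [nbr_A hAB ha, ← Set.image_univ, Set.ncard_image_of_injective]
  · rw [Set.ncard_univ]; simp
  · intro i j hij
    exact part_eq hpart ha ha hij

include hAB hpart in
lemma nbr_B {a : V} (ha : a ∈ A) (i : Fin r) :
    (HG A x).neighborSet (x i a) = (fib (x i) A a : Set V) := by
  ext v
  rw [SimpleGraph.mem_neighborSet, mem_coe, mem_fib]
  constructor
  · intro h
    rcases (HG_adj hAB).1 h with ⟨h1, j, h2⟩ | ⟨h1, j, h2⟩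
    · exact absurd rfl (hAB a ha _ h1 i)
    · have : j = i := part_eq hpart h1 ha h2
      subst this
      exact ⟨h1, h2⟩
  · rintro ⟨h1, h2⟩
    exact (HG_adj hAB).2 (Or.inr ⟨h1, i, h2⟩)

include hAB hpart in
lemma ncard_B {a : V} (ha : a ∈ A) (i : Fin r) :
    ((HG A x).neighborSet (x i a)).ncard = (fib (x i) A a).card := by
  rw [nbr_B hAB hpart ha i, Set.ncard_coe_finset]

end

/-- The general statement. -/
theorem main_general (r R : ℕ) (hr : 1 ≤ r) : ∃ γ : ℕ, ∀ (V : Type) [Fintype V] [Nonempty V]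
    (G : SimpleGraph V), (∀ v : V, γ ≤ (G.neighborSet v).ncard) →
    ∃ (H : SimpleGraph V) (A : Set V) (B : Fin r → Set V) (i₀ : Fin r),
      H ≤ G ∧ A.Nonempty ∧ (∀ i, Disjoint A (B i)) ∧ (∀ i j, i ≠ j → Disjoint (B i) (B j)) ∧
      (∀ v w : V, H.Adj v w → (v ∈ A ∧ ∃ i, w ∈ B i) ∨ ((∃ i, v ∈ B i) ∧ w ∈ A)) ∧
      (∀ a ∈ A, ∀ i, ∃! b, b ∈ B i ∧ H.Adj a b) ∧
      (∀ a ∈ A, (H.neighborSet a).ncard = r) ∧
      (∀ i, ∀ b ∈ B i, R ≤ (H.neighborSet b).ncard) ∧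
      (6 : ℕ∞) ≤ H.egirth ∧
      (∀ (v : V) (p : H.Walk v v), p.IsCycle → ∀ w ∈ p.support, w ∈ B i₀ → 8 ≤ p.length) ∧
      (r = 3 → (8 : ℕ∞) ≤ H.egirth) := by
  obtain ⟨N, hN⟩ := exists_good r R hr
  refine ⟨N, fun V _ _ G hdeg => ?_⟩
  obtain ⟨A, x, i₀, hne, hadj, hAB, hpart, hlin, hfib, hbad⟩ := hN V G hdeg
  refine ⟨HG A x, (A : Set V), fun i => {v | ∃ a ∈ A, x i a = v}, i₀, ?_, ?_, ?_, ?_, ?_, ?_, ?_,
    ?_, ?_, ?_, ?_⟩
  · intro u v h
    rcases (HG_adj hAB).1 h with ⟨h1, i, rfl⟩ | ⟨h1, i, rfl⟩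
    · exact hadj u h1 i
    · exact (hadj v h1 i).symm
  · exact_mod_cast hne
  · intro i
    rw [Set.disjoint_left]
    rintro v hv ⟨a, ha, rfl⟩
    exact hAB a ha _ (by exact_mod_cast hv) i rfl
  · intro i j hij
    rw [Set.disjoint_left]
    rintro v ⟨a, ha, rfl⟩ ⟨b, hb, hab⟩
    exact hij (part_eq hpart hb ha hab).symm
  · intro v w h
    rcases (HG_adj hAB).1 h with ⟨h1, i, h2⟩ | ⟨h1, i, h2⟩
    · exact Or.inl ⟨by exact_mod_cast h1, i, v, h1, h2⟩
    · exact Or.inr ⟨⟨i, w, h1, h2⟩, by exact_mod_cast h1⟩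
  · intro a ha i
    have ha' : a ∈ A := by exact_mod_cast ha
    refine ⟨x i a, ⟨⟨a, ha', rfl⟩, (HG_adj hAB).2 (Or.inl ⟨ha', i, rfl⟩)⟩, ?_⟩
    rintro b ⟨⟨c, hc, rfl⟩, hab⟩
    obtain ⟨j, hj⟩ := HG_adj_A hAB hab ha'
    have := part_eq hpart ha' hc hj
    subst this
    exact hj.symm
  · intro a ha
    exact ncard_A hAB hpart (by exact_mod_cast ha)
  · rintro i b ⟨a, ha, rfl⟩
    rw [ncard_B hAB hpart ha i]
    exact hfib a ha i
  · rw [SimpleGraph.le_egirth]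
    intro v p hp
    exact_mod_cast length_ge_six hAB hpart hlin p hp
  · rintro v p hp w hw ⟨a, ha, rfl⟩
    by_contra h8
    have h6 : p.length = 6 := by
      have h6 := length_ge_six hAB hpart hlin p hp
      obtain ⟨m, hm⟩ := even_closed hAB p
      omega
    obtain ⟨i, j, k, hij, hjk, hki, hi, hj, hk, hs⟩ := six_parts hAB hpart hbad p hp h6
    rcases hs _ hw with h | ⟨c, hc, h | h | h⟩
    · exact hAB a ha _ h i₀ rfl
    · exact hi (part_eq hpart ha hc h).symm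
    · exact hj (part_eq hpart ha hc h).symm
    · exact hk (part_eq hpart ha hc h).symm
  · rintro rfl
    rw [SimpleGraph.le_egirth]
    intro v p hp
    have h6 := length_ge_six hAB hpart hlin p hp
    have heven := even_closed hAB p
    have hne6 : p.length ≠ 6 := by
      intro h
      obtain ⟨i, j, k, hij, hjk, hki, hi, hj, hk, -⟩ := six_parts hAB hpart hbad p hp h
      omega
    have : 8 ≤ p.length := by
      obtain ⟨m, hm⟩ := heven
      omega
    exact_mod_cast this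

end Pool.Agent.MP_ac41cd_co
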